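import Pool.Agent.R330.MA.Mahler

/-!
MP_7488b5_nt, Q1: the answer is no. For every prime `p ≥ 5` and every `n` with `2 ≤ n ≤ p - 2`,
Mahler's series `ξ = T⁻¹ + T^{-p} + T^{-p²} + ⋯ ∈ F_p((T⁻¹))` is algebraic of degree `p > n`
and `ŵ_n^*(ξ) ≤ (p-1)/(p-n) < n`.
-/

namespace Pool.Agent.Results.MP_7488b5_nt.MahlerCounterexample

open Polynomial Pool.Agent.R330.MA

theorem result (p : ℕ) [Fact p.Prime] (n : ℕ) (hn : 2 ≤ n) (hnp : n + 2 ≤ p) :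
    (∃ P : (ZMod p)[X][X], IsMinDef P (mahler p) ∧ P.natDegree = p) ∧
    (∀ P : (ZMod p)[X][X], P ≠ 0 → val P (mahler p) = 0 → p ≤ P.natDegree) ∧
    hatwStar n (mahler p) ≤ ((((p : ℝ) - 1) / ((p : ℝ) - n) : ℝ) : EReal) ∧
    ((((p : ℝ) - 1) / ((p : ℝ) - n) : ℝ) : EReal) < ((n : ℝ) : EReal) ∧
    hatwStar n (mahler p) ≠ ((n : ℝ) : EReal) := by
  have h1 := hatwStar_le p (n := n) (by omega) (by omega)
  have h2 : ((p : ℝ) - 1) / ((p : ℝ) - n) < (n : ℝ) := by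
    have h3 : ((n + 2 : ℕ) : ℝ) ≤ p := by exact_mod_cast hnp
    have h4 : ((2 : ℕ) : ℝ) ≤ n := by exact_mod_cast hn
    push_cast at h3 h4
    rw [div_lt_iff₀ (by linarith)]
    nlinarith
  have h2' : ((((p : ℝ) - 1) / ((p : ℝ) - n) : ℝ) : EReal) < ((n : ℝ) : EReal) := by
    exact_mod_cast h2
  exact ⟨⟨f p, isMinDef_f p, natDegree_f p⟩, fun P hP h => degree_ge p hP h, h1, h2',
    (h1.trans_lt h2').ne⟩

end Pool.Agent.Results.MP_7488b5_nt.MahlerCounterexample
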